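import Mathlib

/-!
For every `N` there is a pattern which some infinite sequence over four letters avoids, and whose
game-avoidability index is larger than `N`.
-/

namespace Pool.Agent.Results.MP_e299be_co.IndexUnbounded

/-- The factor of length `l` of the sequence `s` starting at place `n`. -/
def factor {A : Type} (s : ℕ → A) (n l : ℕ) : List A := (List.range' n l).map s

/-- The word `w` matches the pattern `p` (a word over the variables `0, 1, 2, ...`) via blocks of
length at least `m`: every variable `v` is given a block `B v`, the blocks of the variables of `p`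
have length at least `m`, and `w` is the concatenation of the blocks along `p`. -/
def Matches {A : Type} (m : ℕ) (p : List ℕ) (w : List A) : Prop :=
  ∃ B : ℕ → List A, (∀ v ∈ p, m ≤ (B v).length) ∧ w = p.flatMap B

/-- No factor of the sequence `s` matches `p` via blocks of length at least `m`. -/
def Avoids {A : Type} (m : ℕ) (p : List ℕ) (s : ℕ → A) : Prop :=
  ∀ n l, ¬ Matches m p (factor s n l)

/-- Some infinite sequence over `k` letters avoids `p` (all nonempty blocks are forbidden). -/
def AvoidableOver (k : ℕ) (p : List ℕ) : Prop :=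
  ∃ s : ℕ → Fin k, Avoids 1 p s

/-- The play `s` (Player 1 chooses the entries of even place, Player 2 those of odd place) follows
the strategy `σ` of Player 1, which answers the list of all earlier moves. -/
def Follows {c : ℕ} (σ : List (Fin c) → Fin c) (s : ℕ → Fin c) : Prop :=
  ∀ i, s (2 * i) = σ (factor s 0 (2 * i))

/-- Player 1 has a winning strategy in the `c`-ary sequence game for the pattern `p`. -/
def Player1Wins (c : ℕ) (p : List ℕ) : Prop :=
  ∃ σ : List (Fin c) → Fin c, ∀ s : ℕ → Fin c, Follows σ s → Avoids 2 p s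

/-- The game-avoidability index: the least `c ≥ 1` for which Player 1 wins, `⊤` if there is
none. -/
noncomputable def gameIndex (p : List ℕ) : ℕ∞ :=
  sInf {x : ℕ∞ | ∃ c : ℕ, 1 ≤ c ∧ Player1Wins c p ∧ x = c}

/-! ### Factors -/

lemma length_factor {A : Type} (s : ℕ → A) (n l : ℕ) : (factor s n l).length = l := by
  simp [factor]

lemma factor_add {A : Type} (s : ℕ → A) (n a b : ℕ) :
    factor s n (a + b) = factor s n a ++ factor s (n + a) b := by
  unfold factor
  rw [← List.map_append, List.range'_append_1]

lemma factor_succ {A : Type} (s : ℕ → A) (n l : ℕ) :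
    factor s n (l + 1) = s n :: factor s (n + 1) l := by
  unfold factor
  rw [List.range'_succ]
  rfl

lemma factor_succ' {A : Type} (s : ℕ → A) (n l : ℕ) :
    factor s n (l + 1) = factor s n l ++ [s (n + l)] := by
  rw [factor_add]
  rfl

lemma middle_factor {A : Type} {s : ℕ → A} {n l : ℕ} {a m b : List A}
    (h : factor s n l = a ++ m ++ b) : m = factor s (n + a.length) m.length := by
  have hl : l = a.length + m.length + b.length := by
    have := congrArg List.length h
    rw [length_factor] at this
    simpa [List.length_append, Nat.add_assoc] using this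
  rw [hl, factor_add, factor_add] at h
  have h1 := (List.append_inj h (by simp [length_factor])).1
  have h2 := (List.append_inj h1 (by simp [length_factor])).2
  exact h2.symm

/-! ### A sequence over four letters -/

/-- The paperfolding sequence. -/
def pf (n : ℕ) : Bool := if n % 2 = 0 then decide (n / 2 % 2 = 1) else pf (n / 2)
termination_by n
decreasing_by omega

lemma pf_even (i : ℕ) : pf (2 * i) = decide (i % 2 = 1) := by
  rw [pf, if_pos (by omega)]
  have : 2 * i / 2 = i := by omega
  rw [this]

lemma pf_odd (i : ℕ) : pf (2 * i + 1) = pf i := by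
  rw [pf, if_neg (by omega)]
  have : (2 * i + 1) / 2 = i := by omega
  rw [this]

/-- The sequence: parity of the place, and the paperfolding sequence. -/
def W (n : ℕ) : Bool × Bool := (decide (n % 2 = 1), pf n)

/-- Recovering one letter from two consecutive letters. -/
def tau (a b : Bool × Bool) : Bool × Bool := if a.1 = false then (a.2, b.2) else (!b.2, a.2)

lemma tau_W (n : ℕ) : tau (W n) (W (n + 1)) = W (n / 2) := by
  rcases Nat.even_or_odd' n with ⟨i, rfl | rfl⟩
  · have h1 : 2 * i / 2 = i := by omega
    rw [h1]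
    simp [tau, W, pf_even, pf_odd]
  · have h1 : (2 * i + 1) / 2 = i := by omega
    have h2 : (2 * i + 1) % 2 = 1 := by omega
    have h3 : 2 * i + 1 + 1 = 2 * (i + 1) := by ring
    have h4 : (!decide ((i + 1) % 2 = 1)) = decide (i % 2 = 1) := by
      by_cases h : i % 2 = 1
      · have h' : ¬ ((i + 1) % 2 = 1) := by omega
        simp only [h, h', decide_true, decide_false, Bool.not_false]
      · have h' : (i + 1) % 2 = 1 := by omega
        simp only [h, h', decide_true, decide_false, Bool.not_true]
    rw [h1, h3]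
    simp only [tau, W, pf_even, pf_odd, h2, h4, decide_true, Bool.true_eq_false, if_false]

/-- Replacing consecutive pairs of letters by one letter. -/
def compress : List (Bool × Bool) → List (Bool × Bool)
  | a :: b :: t => tau a b :: compress t
  | _ => []

lemma length_compress : ∀ x : List (Bool × Bool), (compress x).length = x.length / 2
  | [] => rfl
  | [_] => by simp [compress]
  | a :: b :: t => by
    have := length_compress t
    simp only [compress, List.length_cons, this]
    omega

lemma compress_append : ∀ x y : List (Bool × Bool), x.length % 2 = 0 →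
    compress (x ++ y) = compress x ++ compress y
  | [], y, _ => rfl
  | [_], y, h => by simp at h
  | a :: b :: t, y, h => by
    have ht : t.length % 2 = 0 := by
      simp only [List.length_cons] at h
      omega
    have := compress_append t y ht
    simp [compress, this]

lemma compress_factor (m : ℕ) : ∀ n, compress (factor W n (2 * m)) = factor W (n / 2) m := by
  induction m with
  | zero => intro n; rfl
  | succ m ih =>
    intro n
    have h1 : 2 * (m + 1) = 2 * m + 1 + 1 := by ring
    rw [h1, factor_succ, factor_succ, factor_succ W (n / 2) m]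
    simp only [compress]
    rw [ih, tau_W]
    have h2 : (n + 1 + 1) / 2 = n / 2 + 1 := by omega
    rw [h2]

/-- Every vertex `x` has an alternating closed walk from its out-side to its in-side. -/
def Locked {X : Type} (D : X → X → Prop) : Prop :=
  ∀ x, ∃ y₁ x₂ y₃ x₄, D x y₁ ∧ D x₂ y₁ ∧ D x₂ y₃ ∧ D x₄ y₃ ∧ D x₄ x

lemma head_bit {h g : List (Bool × Bool)} (hh : h ≠ []) (hg : g ≠ []) {n l : ℕ}
    (e : h ++ g = factor W n l) :
    (g.headD (false, false)).1 =
      xor (h.headD (false, false)).1 (decide (h.length % 2 = 1)) := by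
  have e1 : h = factor W n h.length := by
    have := middle_factor (a := []) (m := h) (b := g) (by simpa using e.symm)
    simpa using this
  have e2 : g = factor W (n + h.length) g.length := by
    have := middle_factor (a := h) (m := g) (b := []) (by simpa using e.symm)
    simpa using this
  have f1 : h.headD (false, false) = W n := by
    obtain ⟨k, hk⟩ := Nat.exists_eq_succ_of_ne_zero (n := h.length) (by simpa using hh)
    rw [hk, Nat.succ_eq_add_one, factor_succ] at e1
    rw [e1]
    rfl
  have f2 : g.headD (false, false) = W (n + h.length) := by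
    obtain ⟨k, hk⟩ := Nat.exists_eq_succ_of_ne_zero (n := g.length) (by simpa using hg)
    rw [hk, Nat.succ_eq_add_one, factor_succ] at e2
    rw [e2]
    rfl
  rw [f1, f2]
  simp only [W]
  by_cases a : n % 2 = 1 <;> by_cases b : h.length % 2 = 1
  · have : ¬ ((n + h.length) % 2 = 1) := by omega
    simp only [a, b, this, decide_true, decide_false, Bool.xor_self]
  · have : (n + h.length) % 2 = 1 := by omega
    simp only [a, b, this, decide_true, decide_false, Bool.xor_false]
  · have : (n + h.length) % 2 = 1 := by omega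
    simp only [a, b, this, decide_true, decide_false, Bool.false_xor]
  · have : ¬ ((n + h.length) % 2 = 1) := by omega
    simp only [a, b, this, decide_false, Bool.xor_self]

/-- A locked digraph has no valuation by nonempty words for which all edges become factors of
`W`. -/
theorem no_valuation {X : Type} {D : X → X → Prop} (hD : Locked D) (x₀ : X) :
    ∀ (m : ℕ) (h : X → List (Bool × Bool)), (h x₀).length = m → (∀ x, h x ≠ []) →
      (∀ x y, D x y → ∃ n l, h x ++ h y = factor W n l) → False := by
  intro m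
  induction m using Nat.strong_induction_on with
  | _ m ih =>
    intro h hm hne hf
    have hbit : ∀ x y, D x y → ((h y).headD (false, false)).1 =
        xor ((h x).headD (false, false)).1 (decide ((h x).length % 2 = 1)) := by
      intro x y hxy
      obtain ⟨n, l, e⟩ := hf x y hxy
      exact head_bit (hne x) (hne y) e
    have heven : ∀ x, (h x).length % 2 = 0 := by
      intro x
      obtain ⟨y₁, x₂, y₃, x₄, h1, h2, h3, h4, h5⟩ := hD x
      have e : xor ((h x).headD (false, false)).1 (decide ((h x).length % 2 = 1)) =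
          ((h x).headD (false, false)).1 := by
        rw [← hbit _ _ h1, hbit _ _ h2, ← hbit _ _ h3, hbit _ _ h4, ← hbit _ _ h5]
      by_contra hc
      have h1' : (h x).length % 2 = 1 := by omega
      rw [h1'] at e
      revert e
      cases ((h x).headD (false, false)).1 <;> simp
    have hpos : 0 < (h x₀).length := List.length_pos_of_ne_nil (hne x₀)
    refine ih (m / 2) (by omega) (fun x => compress (h x)) ?_ ?_ ?_
    · rw [length_compress, hm]
    · intro x hx
      have h1 := length_compress (h x)
      rw [hx] at h1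
      have h2 : 0 < (h x).length := List.length_pos_of_ne_nil (hne x)
      have h3 := heven x
      simp only [List.length_nil] at h1
      omega
    · intro x y hxy
      obtain ⟨n, l, e⟩ := hf x y hxy
      have hl : l = 2 * (l / 2) := by
        have := congrArg List.length e
        rw [length_factor, List.length_append] at this
        have h1 := heven x
        have h2 := heven y
        omega
      refine ⟨n / 2, l / 2, ?_⟩
      rw [← compress_append _ _ (heven x), e, ← compress_factor, ← hl]

/-! ### Histories of the game -/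

section Game

variable {c : ℕ} (σ : List (Fin c) → Fin c)

/-- A finite history in which Player 1 has followed `σ`. -/
def Hist (h : List (Fin c)) : Prop :=
  ∀ i, 2 * i < h.length → h[2 * i]? = some (σ (h.take (2 * i)))

lemma hist_nil : Hist σ [] := by
  intro i hi
  simp at hi

variable {σ}

lemma hist_left {a b : List (Fin c)} (h : Hist σ (a ++ b)) : Hist σ a := by
  intro i hi
  have := h i (by rw [List.length_append]; omega)
  rw [List.getElem?_append_left hi, List.take_append_of_le_length (by omega)] at this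
  exact this

lemma hist_odd {h : List (Fin c)} (hh : Hist σ h) (ho : h.length % 2 = 1) (y : Fin c) :
    Hist σ (h ++ [y]) := by
  intro i hi
  have hi' : 2 * i < h.length := by
    rw [List.length_append, List.length_singleton] at hi
    omega
  rw [List.getElem?_append_left hi', List.take_append_of_le_length (by omega)]
  exact hh i hi'

lemma hist_even {h : List (Fin c)} (hh : Hist σ h) : Hist σ (h ++ [σ h]) := by
  intro i hi
  by_cases hi' : 2 * i < h.length
  · rw [List.getElem?_append_left hi', List.take_append_of_le_length (by omega)]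
    exact hh i hi'
  · have e : 2 * i = h.length := by
      rw [List.length_append, List.length_singleton] at hi
      omega
    rw [e]
    simp

lemma hist_extend {h : List (Fin c)} (hh : Hist σ h) :
    ∀ k, ∃ u : List (Fin c), u.length = k ∧ Hist σ (h ++ u)
  | 0 => ⟨[], rfl, by simpa using hh⟩
  | k + 1 => by
    obtain ⟨u, hu, hc⟩ := hist_extend hh k
    refine ⟨u ++ [σ (h ++ u)], by simp [hu], ?_⟩
    rw [← List.append_assoc]
    exact hist_even hc

variable (σ)

/-- Some later history ends with the word `w`, placed from a place of parity `r` on. -/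
def Reach (h w : List (Fin c)) (r : ℕ) : Prop :=
  ∃ u, Hist σ (h ++ u ++ w) ∧ (h ++ u).length % 2 = r

/-- From every later history some later history ends with the word `w` (with parity `r`). -/
def Rec (h w : List (Fin c)) (r : ℕ) : Prop :=
  ∀ v, Hist σ (h ++ v) → Reach σ (h ++ v) w r

variable {σ}

lemma reach_mono {h v w : List (Fin c)} {r : ℕ} (H : Reach σ (h ++ v) w r) : Reach σ h w r := by
  obtain ⟨u, h1, h2⟩ := H
  exact ⟨v ++ u, by simpa [List.append_assoc] using h1, by simpa [List.append_assoc] using h2⟩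

lemma settle (T : Finset (List (Fin c) × ℕ)) :
    ∃ h, Hist σ h ∧ ∀ p ∈ T, Rec σ h p.1 p.2 ∨ ¬ Reach σ h p.1 p.2 := by
  classical
  induction T using Finset.induction_on with
  | empty => exact ⟨[], hist_nil σ, by simp⟩
  | insert p T hp ih =>
    obtain ⟨h, hh, H⟩ := ih
    by_cases hr : Rec σ h p.1 p.2
    · refine ⟨h, hh, ?_⟩
      intro q hq
      rcases Finset.mem_insert.mp hq with rfl | hq
      · exact Or.inl hr
      · exact H q hq
    · unfold Rec at hr
      push Not at hr
      obtain ⟨v, hv, hv'⟩ := hr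
      refine ⟨h ++ v, hv, ?_⟩
      intro q hq
      rcases Finset.mem_insert.mp hq with rfl | hq
      · exact Or.inr hv'
      · rcases H q hq with H1 | H1
        · left
          intro v' hv2
          rw [List.append_assoc] at hv2 ⊢
          exact H1 _ hv2
        · exact Or.inr fun h2 => H1 (reach_mono h2)

variable (σ)

/-- All words of length at most four which can be reached are recurrent. -/
def Settled (h : List (Fin c)) : Prop :=
  ∀ w r, w.length ≤ 4 → r < 2 → Reach σ h w r → Rec σ h w r

variable {σ}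

lemma exists_settled : ∃ h, Hist σ h ∧ Settled σ h := by
  have hf : ({w : List (Fin c) | w.length ≤ 4} ×ˢ {r : ℕ | r < 2}).Finite :=
    (List.finite_length_le (Fin c) 4).prod (Set.finite_lt_nat 2)
  obtain ⟨h, hh, H⟩ := settle (σ := σ) hf.toFinset
  refine ⟨h, hh, ?_⟩
  intro w r hw hr hreach
  rcases H (w, r) (by
    rw [Set.Finite.mem_toFinset]
    exact ⟨hw, hr⟩) with H1 | H1
  · exact H1
  · exact absurd hreach H1

lemma rec_nil {h : List (Fin c)} {r : ℕ} (hr : r < 2) : Rec σ h [] r := by
  intro v hv
  by_cases e : (h ++ v).length % 2 = r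
  · exact ⟨[], by simpa using hv, by simpa using e⟩
  · obtain ⟨u, hu, hu'⟩ := hist_extend hv 1
    refine ⟨u, by simpa using hu', ?_⟩
    rw [List.length_append, hu]
    omega

lemma rec_odd {h w : List (Fin c)} {r : ℕ} (H : Rec σ h w r) (ho : (r + w.length) % 2 = 1)
    (y : Fin c) : Rec σ h (w ++ [y]) r := by
  intro v hv
  obtain ⟨u, h1, h2⟩ := H v hv
  refine ⟨u, ?_, h2⟩
  rw [← List.append_assoc]
  apply hist_odd h1
  rw [List.length_append]
  omega

lemma rec_even {h w : List (Fin c)} {r : ℕ} (hh : Hist σ h) (hs : Settled σ h)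
    (H : Rec σ h w r) (hr : r < 2) (hw : w.length + 1 ≤ 4) :
    ∃ x, Rec σ h (w ++ [x]) r := by
  obtain ⟨u, h1, h2⟩ := H [] (by simpa using hh)
  rw [List.append_nil] at h1 h2
  refine ⟨σ (h ++ u ++ w), hs _ _ (by simpa using hw) hr ⟨u, ?_, h2⟩⟩
  rw [← List.append_assoc]
  exact hist_even h1

lemma rec_left {h w₁ w₂ : List (Fin c)} {r : ℕ} (H : Rec σ h (w₁ ++ w₂) r) : Rec σ h w₁ r := by
  intro v hv
  obtain ⟨u, h1, h2⟩ := H v hv
  rw [← List.append_assoc] at h1
  exact ⟨u, hist_left h1, h2⟩

lemma rec_right {h w₁ w₂ : List (Fin c)} {r : ℕ} (H : Rec σ h (w₁ ++ w₂) r) :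
    Rec σ h w₂ ((r + w₁.length) % 2) := by
  intro v hv
  obtain ⟨u, h1, h2⟩ := H v hv
  refine ⟨u ++ w₁, by simpa [List.append_assoc] using h1, ?_⟩
  rw [← List.append_assoc, List.length_append]
  omega

lemma rec_before {h : List (Fin c)} {x : Fin c} (hh : Hist σ h) (hs : Settled σ h)
    (H : Rec σ h [x] 0) : ∃ x₀ b₀, Rec σ h [x₀, b₀, x] 0 := by
  obtain ⟨v, hv, hv'⟩ := hist_extend hh 2
  obtain ⟨u, h1, h2⟩ := H v hv'
  have hlen : 2 ≤ (v ++ u).length := by
    rw [List.length_append]
    omega
  obtain ⟨u', x₀, b₀, e⟩ : ∃ u' x₀ b₀, v ++ u = u' ++ [x₀, b₀] := by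
    have e1 : v ++ u ≠ [] := by
      intro h0
      rw [h0] at hlen
      simp at hlen
    have e2 := List.dropLast_append_getLast e1
    have e3 : (v ++ u).dropLast ≠ [] := by
      intro h0
      have := congrArg List.length h0
      rw [List.length_dropLast] at this
      simp only [List.length_nil] at this
      omega
    have e4 := List.dropLast_append_getLast e3
    refine ⟨(v ++ u).dropLast.dropLast, (v ++ u).dropLast.getLast e3, (v ++ u).getLast e1, ?_⟩
    conv_lhs => rw [← e2, ← e4]
    simp
  refine ⟨x₀, b₀, hs _ _ (by simp) (by norm_num) ⟨u', ?_, ?_⟩⟩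
  · have : h ++ v ++ u ++ [x] = h ++ u' ++ [x₀, b₀, x] := by
      rw [List.append_assoc h v u, e]
      simp
    rw [← this]
    exact h1
  · rw [List.append_assoc, e, List.length_append, List.length_append] at h2
    rw [List.length_append]
    simp only [List.length_cons, List.length_nil] at h2
    omega

/-- The two-letter word of a pair of letters. -/
def blk (A : Fin c × Fin c) : List (Fin c) := [A.1, A.2]

variable (σ)

/-- The pair of letters can recur as a move of Player 1 followed by a move of Player 2. -/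
def Vert (h : List (Fin c)) (A : Fin c × Fin c) : Prop := Rec σ h [A.1] 0

/-- The four-letter word of two pairs of letters is recurrent, for one of the two parities. -/
def Edge (h : List (Fin c)) (A B : Fin c × Fin c) : Prop :=
  ∃ r, Rec σ h (blk A ++ blk B) r

variable {σ}

lemma vert_exists {h : List (Fin c)} (hh : Hist σ h) (hs : Settled σ h) :
    ∃ A, Vert σ h A := by
  obtain ⟨x, hx⟩ := rec_even hh hs (rec_nil (σ := σ) (h := h) (r := 0) (by norm_num))
    (by norm_num) (by simp)
  have hx' : Rec σ h [x] 0 := by simpa using hx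
  exact ⟨(x, x), hx'⟩

lemma edge_walk {h : List (Fin c)} (hh : Hist σ h) (hs : Settled σ h) {A : Fin c × Fin c}
    (hA : Vert σ h A) :
    ∃ y₁ x₂ y₃ x₄, (Vert σ h y₁ ∧ Vert σ h x₂ ∧ Vert σ h y₃ ∧ Vert σ h x₄) ∧
      Edge σ h A y₁ ∧ Edge σ h x₂ y₁ ∧ Edge σ h x₂ y₃ ∧ Edge σ h x₄ y₃ ∧ Edge σ h x₄ A := by
  obtain ⟨x, b⟩ := A
  have hx : Rec σ h [x] 0 := hA
  -- the answer of Player 1 to `x b`
  have h1 : Rec σ h [x, b] 0 := rec_odd hx (by simp) b
  obtain ⟨x', h2⟩ := rec_even hh hs h1 (by norm_num) (by simp)
  have h2' : Rec σ h [x, b, x'] 0 := by simpa using h2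
  have hx' : Rec σ h [x'] 0 := by
    have := rec_right (w₁ := [x, b]) (w₂ := [x']) (by simpa using h2')
    simpa using this
  -- a pair starting with a move of Player 2
  have h3 : Rec σ h [x] 1 := by
    have := rec_odd (rec_nil (σ := σ) (h := h) (r := 1) (by norm_num)) (by simp) x
    simpa using this
  obtain ⟨q, h4⟩ := rec_even hh hs h3 (by norm_num) (by simp)
  have h4' : Rec σ h [x, q] 1 := by simpa using h4
  have h5 : ∀ b₁, ∃ t, Rec σ h [x, q, b₁, t] 1 := by
    intro b₁
    have h6 : Rec σ h [x, q, b₁] 1 := by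
      have := rec_odd h4' (by simp) b₁
      simpa using this
    obtain ⟨t, h7⟩ := rec_even hh hs h6 (by norm_num) (by simp)
    exact ⟨t, by simpa using h7⟩
  obtain ⟨t₁, ht₁⟩ := h5 x'
  obtain ⟨t₂, ht₂⟩ := h5 x
  obtain ⟨x₀, b₀, h8⟩ := rec_before hh hs hx
  have hx₀ : Rec σ h [x₀] 0 := rec_left (w₁ := [x₀]) (w₂ := [b₀, x]) (by simpa using h8)
  have h9 : ∀ b', Rec σ h [x₀, b₀, x, b'] 0 := by
    intro b'
    have := rec_odd h8 (by simp) b'
    simpa using this
  refine ⟨(x', t₁), (x, q), (x, t₂), (x₀, b₀), ⟨hx', hx, hx, hx₀⟩, ?_, ?_, ?_, ?_, ?_⟩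
  · refine ⟨0, ?_⟩
    have := rec_odd h2' (by simp) t₁
    simpa [blk] using this
  · exact ⟨1, by simpa [blk] using ht₁⟩
  · exact ⟨1, by simpa [blk] using ht₂⟩
  · exact ⟨0, by simpa [blk] using h9 t₂⟩
  · exact ⟨0, by simpa [blk] using h9 b⟩

end Game

/-! ### The pattern -/

/-- The pattern of a list of edges: before every edge `x → y` a variable occurring once. -/
def pat {X : Type} (ι : X → ℕ) : List (X × X) → ℕ → List ℕ
  | [], _ => []
  | e :: t, k => k :: ι e.1 :: ι e.2 :: pat ι t (k + 1)

lemma mem_pat {X : Type} {ι : X → ℕ} : ∀ {L : List (X × X)} {k v : ℕ}, v ∈ pat ι L k →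
    (∃ x, ι x = v) ∨ k ≤ v
  | [], k, v, h => by simp [pat] at h
  | e :: t, k, v, h => by
    simp only [pat, List.mem_cons] at h
    rcases h with rfl | rfl | rfl | h
    · exact Or.inr le_rfl
    · exact Or.inl ⟨_, rfl⟩
    · exact Or.inl ⟨_, rfl⟩
    · rcases mem_pat h with h | h
      · exact Or.inl h
      · exact Or.inr (by omega)

lemma pat_split {X : Type} {ι : X → ℕ} : ∀ {L : List (X × X)} {k : ℕ} {e : X × X}, e ∈ L →
    ∃ a b, pat ι L k = a ++ [ι e.1, ι e.2] ++ b
  | [], k, e, h => by simp at h
  | e' :: t, k, e, h => by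
    rcases List.mem_cons.mp h with rfl | h
    · exact ⟨[k], pat ι t (k + 1), by simp [pat]⟩
    · obtain ⟨a, b, hab⟩ := pat_split (ι := ι) (k := k + 1) h
      exact ⟨k :: ι e'.1 :: ι e'.2 :: a, b, by simp [pat, hab]⟩

open Classical in
/-- The blocks of the variables: two-letter words for the vertices, `g` for the others. -/
noncomputable def val {X : Type} {c : ℕ} (ι : X → ℕ) (π : X → Fin c × Fin c)
    (g : ℕ → List (Fin c)) (v : ℕ) : List (Fin c) :=
  if h : ∃ x, ι x = v then blk (π h.choose) else g v

lemma val_vertex {X : Type} {c : ℕ} {ι : X → ℕ} (hι : Function.Injective ι)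
    (π : X → Fin c × Fin c) (g : ℕ → List (Fin c)) (x : X) : val ι π g (ι x) = blk (π x) := by
  have h : ∃ x', ι x' = ι x := ⟨x, rfl⟩
  unfold val
  rw [dif_pos h, hι h.choose_spec]

lemma val_other {X : Type} {c : ℕ} {ι : X → ℕ} {n : ℕ} (hn : ∀ x, ι x < n)
    (π : X → Fin c × Fin c) (g : ℕ → List (Fin c)) {v : ℕ} (hv : n ≤ v) : val ι π g v = g v := by
  have h : ¬ ∃ x', ι x' = v := by
    rintro ⟨x, rfl⟩
    have := hn x
    omega
  unfold val
  rw [dif_neg h]

lemma flatMap_congr' {A : Type} {f g : ℕ → List A} : ∀ {l : List ℕ}, (∀ v ∈ l, f v = g v) →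
    l.flatMap f = l.flatMap g
  | [], _ => rfl
  | a :: t, h => by
    rw [List.flatMap_cons, List.flatMap_cons, h a (by simp),
      flatMap_congr' fun v hv => h v (by simp [hv])]

section Force

variable {c : ℕ} {σ : List (Fin c) → Fin c}

lemma force {X : Type} {D : X → X → Prop} {ι : X → ℕ} {n : ℕ} (hι : Function.Injective ι)
    (hn : ∀ x, ι x < n) {h : List (Fin c)} {π : X → Fin c × Fin c}
    (hπ : ∀ x y, D x y → Edge σ h (π x) (π y)) (a₀ : Fin c) :
    ∀ (L : List (X × X)), (∀ e ∈ L, D e.1 e.2) → ∀ (k : ℕ), n ≤ k → ∀ v, Hist σ (h ++ v) →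
      ∃ g : ℕ → List (Fin c), (∀ j, 2 ≤ (g j).length) ∧
        Hist σ (h ++ v ++ (pat ι L k).flatMap (val ι π g))
  | [], _, k, _, v, hv => ⟨fun _ => [a₀, a₀], fun _ => le_rfl, by simpa [pat] using hv⟩
  | e :: t, hL, k, hk, v, hv => by
    obtain ⟨u₁, hu₁, hc₁⟩ := hist_extend hv 2
    obtain ⟨r, hr⟩ := hπ _ _ (hL e (by simp))
    rw [List.append_assoc] at hc₁
    obtain ⟨u₂, hc₂, -⟩ := hr (v ++ u₁) hc₁
    have hc₃ : Hist σ (h ++ (v ++ (u₁ ++ u₂) ++ blk (π e.1) ++ blk (π e.2))) := by
      simpa [List.append_assoc] using hc₂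
    obtain ⟨g, hg, hc₄⟩ := force hι hn hπ a₀ t (fun e' he' => hL e' (by simp [he'])) (k + 1)
      (by omega) _ hc₃
    refine ⟨Function.update g k (u₁ ++ u₂), ?_, ?_⟩
    · intro j
      by_cases hj : j = k
      · subst hj
        rw [Function.update_self, List.length_append]
        omega
      · rw [Function.update_of_ne hj]
        exact hg j
    · have e1 : (pat ι t (k + 1)).flatMap (val ι π (Function.update g k (u₁ ++ u₂))) =
          (pat ι t (k + 1)).flatMap (val ι π g) := by
        apply flatMap_congr'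
        intro v' hv'
        rcases mem_pat hv' with ⟨x, rfl⟩ | h1
        · rw [val_vertex hι, val_vertex hι]
        · rw [val_other hn _ _ (by omega), val_other hn _ _ (by omega),
            Function.update_of_ne (by omega)]
      have e2 : (pat ι (e :: t) k).flatMap (val ι π (Function.update g k (u₁ ++ u₂))) =
          (u₁ ++ u₂) ++ (blk (π e.1) ++ (blk (π e.2) ++
            (pat ι t (k + 1)).flatMap (val ι π g))) := by
        rw [pat, List.flatMap_cons, List.flatMap_cons, List.flatMap_cons, e1, val_vertex hι,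
          val_vertex hι, val_other hn _ _ hk, Function.update_self]
      rw [e2]
      simpa [List.append_assoc] using hc₄

/-- The history after `n` moves when Player 1 follows `σ` and Player 2 plays the entries of `t`. -/
def moves (σ : List (Fin c) → Fin c) (t : ℕ → Fin c) : ℕ → List (Fin c)
  | 0 => []
  | n + 1 => moves σ t n ++ [if n % 2 = 0 then σ (moves σ t n) else t n]

/-- The resulting infinite play. -/
def play (σ : List (Fin c) → Fin c) (t : ℕ → Fin c) (n : ℕ) : Fin c :=
  if n % 2 = 0 then σ (moves σ t n) else t n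

lemma factor_play (t : ℕ → Fin c) : ∀ n, factor (play σ t) 0 n = moves σ t n
  | 0 => rfl
  | n + 1 => by
    rw [factor_succ', factor_play t n, moves, Nat.zero_add, play]

lemma follows_play (t : ℕ → Fin c) : Follows σ (play σ t) := by
  intro i
  rw [factor_play, play, if_pos (by omega)]

lemma exists_play {h : List (Fin c)} (hh : Hist σ h) (a₀ : Fin c) :
    ∃ s : ℕ → Fin c, Follows σ s ∧ factor s 0 h.length = h := by
  refine ⟨play σ fun n => h.getD n a₀, follows_play _, ?_⟩
  have key : ∀ n, n ≤ h.length → moves σ (fun n => h.getD n a₀) n = h.take n := by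
    intro n
    induction n with
    | zero => intro _; simp [moves]
    | succ n ih =>
      intro hn
      have hlt : n < h.length := hn
      rw [moves, ih (by omega), List.take_succ_eq_append_getElem hlt]
      congr 2
      by_cases he : n % 2 = 0
      · rw [if_pos he]
        have := hh (n / 2) (by omega)
        have e : 2 * (n / 2) = n := by omega
        rw [e, List.getElem?_eq_getElem hlt] at this
        exact (Option.some.inj this).symm
      · rw [if_neg he, List.getD_eq_getElem _ _ hlt]
  rw [factor_play, key _ le_rfl, List.take_length]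

end Force

/-! ### The universal locked digraph -/

section Universal

variable (c : ℕ)

/-- A nonempty set of vertices of a digraph all of which are locked inside the set. -/
def Good (q : Set ((Fin c × Fin c) × (Fin c × Fin c)) × Set (Fin c × Fin c)) : Prop :=
  ∀ A ∈ q.2, ∃ y₁ ∈ q.2, ∃ x₂ ∈ q.2, ∃ y₃ ∈ q.2, ∃ x₄ ∈ q.2,
    (A, y₁) ∈ q.1 ∧ (x₂, y₁) ∈ q.1 ∧ (x₂, y₃) ∈ q.1 ∧ (x₄, y₃) ∈ q.1 ∧ (x₄, A) ∈ q.1

/-- The vertices of the product of all good digraphs. -/
abbrev UV : Type :=
  (i : {q : Set ((Fin c × Fin c) × (Fin c × Fin c)) × Set (Fin c × Fin c) //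
    q.2.Nonempty ∧ Good c q}) → {A : Fin c × Fin c // A ∈ i.1.2}

/-- The edges of the product. -/
def UE (x y : UV c) : Prop := ∀ i, ((x i).1, (y i).1) ∈ i.1.1

lemma locked_UE : Locked (UE c) := by
  intro x
  have H : ∀ i : {q : Set ((Fin c × Fin c) × (Fin c × Fin c)) × Set (Fin c × Fin c) //
      q.2.Nonempty ∧ Good c q}, ∃ y₁ ∈ i.1.2, ∃ x₂ ∈ i.1.2, ∃ y₃ ∈ i.1.2, ∃ x₄ ∈ i.1.2,
      ((x i).1, y₁) ∈ i.1.1 ∧ (x₂, y₁) ∈ i.1.1 ∧ (x₂, y₃) ∈ i.1.1 ∧ (x₄, y₃) ∈ i.1.1 ∧
        (x₄, (x i).1) ∈ i.1.1 := fun i => i.2.2 (x i).1 (x i).2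
  choose y₁ h₁ x₂ h₂ y₃ h₃ x₄ h₄ e₁ e₂ e₃ e₄ e₅ using H
  exact ⟨fun i => ⟨y₁ i, h₁ i⟩, fun i => ⟨x₂ i, h₂ i⟩, fun i => ⟨y₃ i, h₃ i⟩,
    fun i => ⟨x₄ i, h₄ i⟩, e₁, e₂, e₃, e₄, e₅⟩

instance : Nonempty (UV c) := ⟨fun i => ⟨i.2.1.choose, i.2.1.choose_spec⟩⟩

instance : Finite (UV c) := by
  unfold UV
  infer_instance

end Universal

/-- A pattern all of whose edges come from a nonempty locked digraph is avoided by a sequence
over four letters. -/
theorem avoidable_pat {X : Type} {D : X → X → Prop} (hD : Locked D) (x₀ : X) {ι : X → ℕ}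
    {L : List (X × X)} (hL : ∀ x y, D x y → (x, y) ∈ L) (k : ℕ) :
    AvoidableOver 4 (pat ι L k) := by
  let e : Bool × Bool ≃ Fin 4 := Fintype.equivFinOfCardEq rfl
  refine ⟨fun n => e (W n), ?_⟩
  rintro n l ⟨B, hB, hw⟩
  have hw' : factor W n l = (pat ι L k).flatMap fun v => (B v).map e.symm := by
    have := congrArg (List.map e.symm) hw
    rw [List.map_flatMap] at this
    rw [← this]
    simp [factor]
  refine no_valuation hD x₀ _ (fun x => (B (ι x)).map e.symm) rfl ?_ ?_
  · intro x hx
    obtain ⟨y₁, -, -, -, h1, -⟩ := hD x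
    obtain ⟨a, b, hab⟩ := pat_split (ι := ι) (k := k) (hL _ _ h1)
    have := hB (ι x) (by rw [hab]; simp)
    rw [List.map_eq_nil_iff] at hx
    rw [hx] at this
    simp at this
  · intro x y hxy
    obtain ⟨a, b, hab⟩ := pat_split (ι := ι) (k := k) (hL _ _ hxy)
    rw [hab, List.flatMap_append, List.flatMap_append] at hw'
    have := middle_factor hw'
    refine ⟨n + (a.flatMap fun v => (B v).map e.symm).length,
      ([ι x, ι y].flatMap fun v => (B v).map e.symm).length, ?_⟩
    rw [← this]
    simp

/-- In the `c`-ary game Player 1 has no winning strategy for the pattern of the universal locked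
digraph. -/
theorem not_wins {c : ℕ} (a₀ : Fin c) {ι : UV c → ℕ} {n : ℕ} (hι : Function.Injective ι)
    (hn : ∀ x, ι x < n) {L : List (UV c × UV c)} (hL : ∀ e ∈ L, UE c e.1 e.2) :
    ¬ Player1Wins c (pat ι L n) := by
  rintro ⟨σ, hσ⟩
  obtain ⟨h, hh, hs⟩ := exists_settled (σ := σ)
  have hgood : ({A | Vert σ h A} : Set (Fin c × Fin c)).Nonempty ∧
      Good c ({p | Edge σ h p.1 p.2}, {A | Vert σ h A}) := by
    refine ⟨vert_exists hh hs, ?_⟩
    intro A hA
    obtain ⟨y₁, x₂, y₃, x₄, ⟨h1, h2, h3, h4⟩, e1, e2, e3, e4, e5⟩ := edge_walk hh hs hA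
    exact ⟨y₁, h1, x₂, h2, y₃, h3, x₄, h4, e1, e2, e3, e4, e5⟩
  let i₀ : {q : Set ((Fin c × Fin c) × (Fin c × Fin c)) × Set (Fin c × Fin c) //
    q.2.Nonempty ∧ Good c q} := ⟨({p | Edge σ h p.1 p.2}, {A | Vert σ h A}), hgood⟩
  obtain ⟨g, hg, hp⟩ := force (σ := σ) (D := UE c) hι hn (h := h) (π := fun x => (x i₀).1)
    (fun x y hxy => hxy i₀) a₀ L hL n le_rfl [] (by simpa using hh)
  rw [List.append_nil] at hp
  obtain ⟨s, hs1, hs2⟩ := exists_play hp a₀
  rw [List.length_append, factor_add] at hs2
  have hs3 := (List.append_inj hs2 (by simp [length_factor])).2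
  refine hσ s hs1 _ _ ⟨val ι (fun x => (x i₀).1) g, ?_, hs3⟩
  intro v hv
  rcases mem_pat hv with ⟨x, rfl⟩ | h1
  · rw [val_vertex hι]
    simp [blk]
  · rw [val_other hn _ _ h1]
    exact hg v

/-- More letters do not hurt Player 1. -/
theorem wins_mono {c N : ℕ} (hc : 1 ≤ c) (hcN : c ≤ N) {p : List ℕ} (h : Player1Wins c p) :
    Player1Wins N p := by
  obtain ⟨σ, hσ⟩ := h
  let r : Fin N → Fin c := fun j => if hj : j.1 < c then ⟨j.1, hj⟩ else ⟨0, by omega⟩
  have hr : ∀ x : Fin c, r (Fin.castLE hcN x) = x := by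
    intro x
    simp [r]
  refine ⟨fun l => Fin.castLE hcN (σ (l.map r)), ?_⟩
  rintro s hs n l ⟨B, hB, hw⟩
  refine hσ (fun i => r (s i)) ?_ n l ⟨fun v => (B v).map r, ?_, ?_⟩
  · intro i
    have := hs i
    simp only [this, hr]
    simp [factor, Function.comp_def]
  · intro v hv
    simpa using hB v hv
  · have := congrArg (List.map r) hw
    rw [List.map_flatMap] at this
    rw [← this]
    simp [factor]

/-- For every `N` there is a pattern which is avoidable, even over four letters, and whose
game-avoidability index is larger than `N`. -/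
theorem result : ∀ N : ℕ, ∃ p : List ℕ, AvoidableOver 4 p ∧ (N : ℕ∞) < gameIndex p := by
  classical
  intro N
  let c := N + 1
  obtain ⟨n, ⟨f⟩⟩ := Finite.exists_equiv_fin (UV c)
  let ι : UV c → ℕ := fun x => (f x).1
  have hι : Function.Injective ι := fun x y hxy => f.injective (Fin.ext hxy)
  have hn : ∀ x, ι x < n := fun x => (f x).2
  have hfin : {e : UV c × UV c | UE c e.1 e.2}.Finite := Set.toFinite _
  let L := hfin.toFinset.toList
  have hL : ∀ e, e ∈ L ↔ UE c e.1 e.2 := by
    intro e
    simp [L]
  refine ⟨pat ι L n, ?_, ?_⟩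
  · exact avoidable_pat (locked_UE c) (Classical.arbitrary (UV c)) (fun x y hxy => (hL _).2 hxy) n
  · have hnot : ¬ Player1Wins c (pat ι L n) :=
      not_wins (0 : Fin (N + 1)) hι hn fun e he => (hL e).1 he
    refine lt_of_lt_of_le (b := ((N + 1 : ℕ) : ℕ∞)) (by exact_mod_cast Nat.lt_succ_self N) ?_
    unfold gameIndex
    refine le_sInf ?_
    rintro x ⟨c', h1, h2, rfl⟩
    have : ¬ c' ≤ N := fun hle => hnot (wins_mono h1 (by omega) h2)
    exact_mod_cast (by omega : N + 1 ≤ c')

end Pool.Agent.Results.MP_e299be_co.IndexUnbounded
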